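import Pool.Agent.BLP.StmtsE

/-!
# Squad BLP, row E_ECT: an optimal path crosses a given time
-/

set_option autoImplicit false

namespace Pool.Agent.BLP.H32

open Pool.Agent.BLP

noncomputable section

theorem e_ect (exi : ExiStmt) (pnt : PntStmt) : EctStmt := by
  intro b hb m n s v t hmn hsv hvt
  classical
  obtain ⟨τ, hτ, hopt⟩ := exi b hb m n s t hmn (hsv.trans hvt)
  have hend : τ n = t := hτ.2.1
  -- the first level
  have hex : ∃ j : ℕ, v ≤ τ (m + j) := ⟨(n - m).toNat, by
    rw [Int.toNat_of_nonneg (by omega), add_sub_cancel, hend]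
    exact hvt⟩
  obtain ⟨j, hj⟩ : ∃ j : ℕ, j = Nat.find hex := ⟨_, rfl⟩
  have h1 : v ≤ τ (m + j) := by
    rw [hj]
    exact Nat.find_spec hex
  have h2 : m + (j : ℤ) ≤ n := by
    have : Nat.find hex ≤ (n - m).toNat := Nat.find_min' hex (by
      rw [Int.toNat_of_nonneg (by omega), add_sub_cancel, hend]
      exact hvt)
    rw [← hj] at this
    omega
  have h3 : τ (m + (j : ℤ) - 1) ≤ v := by
    rcases Nat.eq_zero_or_pos j with h0 | h0
    · rw [h0, Nat.cast_zero, add_zero, hτ.1]
      exact hsv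
    · have h4 : ¬ v ≤ τ (m + ((j - 1 : ℕ) : ℤ)) := by
        apply Nat.find_min hex
        omega
      have h5 : m + ((j - 1 : ℕ) : ℤ) = m + (j : ℤ) - 1 := by
        push_cast [Nat.cast_sub (show 1 ≤ j from h0)]
        ring
      rw [h5] at h4
      exact (not_le.1 h4).le
  exact ⟨m + j, by omega, h2, pnt b hb m (m + j) n s v t τ (by omega) h2 hτ hopt h3 h1⟩

end

end Pool.Agent.BLP.H32
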