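import Pool.Agent.BLP.StmtsV

/-!
# Squad BLP, row V_SRT: sorting
-/

set_option autoImplicit false

namespace Pool.Agent.BLP.V.H32

open Pool.Agent.BLP Pool.Agent.BLP.V

noncomputable section

theorem v_srt : SrtStmt := by
  intro n U hU e₁ e₂ e₃ e₄ h12 h23 h34 k t c d hk ht h1 h2
  obtain ⟨b, hb⟩ := hU.dp
  obtain ⟨b2, u, hu1, hu2, hu3⟩ := hb e₂ k t hk ht
  obtain ⟨b3, v, hv1, hv2, hv3⟩ := hb e₃ k t hk (ht.trans h23)
  obtain ⟨b4, -⟩ := hb e₄ k t hk ((ht.trans h23).trans h34)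
  refine ⟨u, hu2, ?_, ?_⟩
  · by_cases h : e₁ < u
    · exact Or.inl h
    · right
      have h' := not_lt.1 h
      rcases h1 with h1 | h1
      · linarith
      · obtain ⟨b1, -⟩ := hb e₁ k t hk (hu1.trans h')
        have := b1 u hu1 h'
        linarith
  · rcases le_or_gt u v with h | h
    · have q := hU.qua e₃ e₄ (k + 1) u v hk h34 h hv2
      have := b4 v hv1 (hv2.trans h34)
      linarith
    · have q := hU.qua e₂ e₃ (k + 1) v u hk h23 h.le hu2
      have o := b2 v hv1 (h.le.trans hu2)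
      have := b4 u hu1 ((hu2.trans h23).trans h34)
      linarith

end

end Pool.Agent.BLP.V.H32
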